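import Pool.Agent.helper7.EP.SpecH

/-! # Project ep, module TW: the Hecke operators preserve the space `WW` -/

set_option autoImplicit false

open Finset PowerSeries
open scoped MatrixGroups Real

namespace Pool.Agent.EP

theorem TW_zero (l : ℕ) : IsT l (0 : KK) 0 := by
  intro M
  simp

theorem TW_add {l : ℕ} {f f' g g' : KK} (h : IsT l f g) (h' : IsT l f' g') :
    IsT l (f + f') (g + g') := by
  intro M
  have a := h M
  have b := h' M
  rw [HahnSeries.coeff_add, HahnSeries.coeff_add, a, b]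
  by_cases hd : (l : ℤ) ∣ M
  · rw [if_pos hd, if_pos hd, if_pos hd, HahnSeries.coeff_add]
    ring
  · rw [if_neg hd, if_neg hd, if_neg hd]
    ring

theorem TW_smul {l : ℕ} {f g : KK} (c : ZMod 2) (h : IsT l f g) : IsT l (c • f) (c • g) := by
  intro M
  have a := h M
  rw [HahnSeries.coeff_smul, HahnSeries.coeff_smul, a]
  by_cases hd : (l : ℤ) ∣ M
  · rw [if_pos hd, if_pos hd, HahnSeries.coeff_smul, smul_add]
  · rw [if_neg hd, if_neg hd, smul_add, smul_zero]

theorem TW (hTW1 : TW1_stmt) : TW_stmt := by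
  intro l hl hl5 f hf
  unfold WW at hf
  induction hf using Submodule.span_induction with
  | mem x hx =>
    obtain ⟨i, hi, rfl⟩ := hx
    exact hTW1 l i hl hl5 hi
  | zero => exact ⟨0, WW.zero_mem, TW_zero l⟩
  | add x y _ _ hx hy =>
    obtain ⟨g, hg, h1⟩ := hx
    obtain ⟨g', hg', h2⟩ := hy
    exact ⟨g + g', WW.add_mem hg hg', TW_add h1 h2⟩
  | smul c x _ hx =>
    obtain ⟨g, hg, h1⟩ := hx
    exact ⟨c • g, WW.smul_mem c hg, TW_smul c h1⟩

end Pool.Agent.EP
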