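import Pool.Agent.helper7.EP.SpecH

/-! # Project ep, module JW: elements of `WW` with coefficients `JG ac j` -/

set_option autoImplicit false

open Finset PowerSeries
open scoped MatrixGroups Real

namespace Pool.Agent.EP

theorem JW_one (hWM : WM_stmt) (M : ℤ) : ww.coeff M = JG ac 1 M := by
  have h := hWM.1 1 M
  rw [pow_one, pow_one] at h
  rw [h]
  have h1 : JG ac 1 M = ac M := by
    unfold JG
    rw [Nat.divisors_one, Finset.filter_singleton, if_pos (by simp), Finset.sum_singleton]
    simp
  rw [h1]
  unfold ac
  by_cases hc : M % 24 = 23 ∧ -1 ≤ M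
  · rw [if_pos hc, if_pos]
    · simp only [helper81.PP, PowerSeries.coeff_mk, pp]
      rfl
    · push_cast
      constructor
      · omega
      · omega
  · rw [if_neg hc, if_neg]
    intro h2
    apply hc
    push_cast at h2
    obtain ⟨a, b⟩ := h2
    constructor
    · omega
    · omega

theorem JW (hTW : TW_stmt) (hJREC : JREC_stmt) (hWM : WM_stmt) : JW_stmt := by
  intro j
  induction j using Nat.strong_induction_on with
  | _ j ih =>
    intro hj hc
    by_cases h1 : j = 1
    · subst h1
      refine ⟨ww, Submodule.subset_span ⟨1, le_refl _, (pow_one _).symm⟩, JW_one hWM⟩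
    · have hl : (Nat.minFac j).Prime := Nat.minFac_prime h1
      set l := Nat.minFac j with hldef
      have hlj : l ∣ j := Nat.minFac_dvd j
      have hl5 : 5 ≤ l := by
        have hcl : Nat.Coprime l 6 := Nat.Coprime.coprime_dvd_left hlj hc
        by_contra hlt
        push Not at hlt
        have h2 := hl.two_le
        interval_cases l
        · revert hcl; decide
        · revert hcl; decide
        · revert hcl; decide
      obtain ⟨j', hj'⟩ := hlj
      have hj'0 : 0 < j' := by
        rcases Nat.eq_zero_or_pos j' with h | h
        · rw [h] at hj'; omega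
        · exact h
      have hj'lt : j' < j := by
        rw [hj']
        nlinarith
      have hcj' : Nat.Coprime j' 6 :=
        Nat.Coprime.coprime_dvd_left (Dvd.intro_left l hj'.symm) hc
      obtain ⟨f', hf', hf'c⟩ := ih j' hj'lt hj'0 hcj'
      obtain ⟨g, hg, hgT⟩ := hTW l hl hl5 f' hf'
      have hrec : ∀ M : ℤ, g.coeff M = JG ac j M + (if l ∣ j' then JG ac (j' / l) M else 0) := by
        intro M
        rw [hgT M, hf'c, hf'c, hj']
        exact hJREC ac l j' M hl hj'0
      by_cases hd : l ∣ j'
      · obtain ⟨k, hk⟩ := hd
        have hk0 : 0 < k := by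
          rcases Nat.eq_zero_or_pos k with h | h
          · rw [h] at hk; omega
          · exact h
        have hklt : k < j := by
          have : k ≤ j' := by rw [hk]; nlinarith
          omega
        have hck : Nat.Coprime k 6 :=
          Nat.Coprime.coprime_dvd_left (Dvd.intro_left l hk.symm) hcj'
        obtain ⟨f2, hf2, hf2c⟩ := ih k hklt hk0 hck
        refine ⟨g + f2, WW.add_mem hg hf2, fun M => ?_⟩
        have hdiv : j' / l = k := by
          rw [hk]; exact Nat.mul_div_cancel_left k hl.pos
        rw [HahnSeries.coeff_add, hrec M, if_pos (Dvd.intro k hk.symm), hdiv, hf2c, add_assoc,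
          CharTwo.add_self_eq_zero, add_zero]
      · refine ⟨g, hg, fun M => ?_⟩
        rw [hrec M, if_neg hd, add_zero]

end Pool.Agent.EP
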